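import Mathlib

namespace Pool.Agent.Results.MP_49573d_co.Even

open Finset

/-- Strict order: irreflexive and transitive. -/
def PO {n : ℕ} (r : Finset (Fin n × Fin n)) : Prop :=
  (∀ a, (a, a) ∉ r) ∧ ∀ a b c, (a, b) ∈ r → (b, c) ∈ r → (a, c) ∈ r

/-- Weak order: incomparability is transitive. -/
def Weak {n : ℕ} (r : Finset (Fin n × Fin n)) : Prop :=
  PO r ∧ ∀ a b c, ((a, b) ∉ r ∧ (b, a) ∉ r) → ((b, c) ∉ r ∧ (c, b) ∉ r) →
    ((a, c) ∉ r ∧ (c, a) ∉ r)

/-- Interval order. -/
def Intv {n : ℕ} (r : Finset (Fin n × Fin n)) : Prop :=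
  PO r ∧ ∀ a b c d, (a, b) ∈ r → (c, d) ∈ r → (a, d) ∈ r ∨ (c, b) ∈ r

/-- Semiorder. -/
def Semi {n : ℕ} (r : Finset (Fin n × Fin n)) : Prop :=
  Intv r ∧ ∀ a b c d, (a, b) ∈ r → (b, c) ∈ r → (a, d) ∈ r ∨ (d, c) ∈ r

lemma half {n : ℕ} (r : Finset (Fin n × Fin n)) (h : PO r) : 2 * r.card ≤ n * n - n := by
  have h1 : (r.image Prod.swap).card = r.card := card_image_of_injective _ Prod.swap_injective
  have h2 : Disjoint r (r.image Prod.swap) := by
    refine disjoint_left.2 fun x hx hy => ?_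
    obtain ⟨y, hy1, rfl⟩ := mem_image.1 hy
    exact h.1 _ (h.2 y.1 y.2 y.1 hy1 hx)
  have h3 : r ∪ r.image Prod.swap ⊆ (univ : Finset (Fin n)).offDiag := by
    intro x hx
    refine mem_offDiag.2 ⟨mem_univ _, mem_univ _, fun e => ?_⟩
    rcases mem_union.1 hx with hx | hx
    · exact h.1 x.1 (by rwa [show (x.1, x.1) = x from Prod.ext rfl e])
    · obtain ⟨y, hy, rfl⟩ := mem_image.1 hx
      exact h.1 y.1 (by rwa [show (y.1, y.1) = y from Prod.ext rfl e.symm])
  have h4 := card_le_card h3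
  rw [card_union_of_disjoint h2, offDiag_card, card_univ, Fintype.card_fin] at h4
  omega

theorem result (n p : ℕ) (R : Finset (Fin n × Fin n) → Prop)
    (hR : R = Weak ∨ R = Semi ∨ R = Intv ∨ R = PO) :
    IsGreatest {d : ℕ | ∃ π : Fin (p + p) → Finset (Fin n × Fin n), (∀ i, R (π i)) ∧
      IsLeast {t : ℕ | ∃ s, R s ∧ t = ∑ i, (symmDiff (π i) s).card} d} (p * (n * n - n)) := by
  have po : ∀ r, R r → PO r := by
    intro r hr
    rcases hR with rfl | rfl | rfl | rfl
    exacts [hr.1, hr.1.1, hr.1, hr]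
  have mk : ∀ f : Fin n → ℤ, R (univ.filter fun x => f x.1 < f x.2) := by
    intro f
    rcases hR with rfl | rfl | rfl | rfl <;>
      simp only [Weak, Semi, Intv, PO, mem_filter, mem_univ, true_and] <;>
      refine ⟨?_, ?_⟩ <;> (try refine ⟨?_, ?_⟩) <;> (try refine ⟨?_, ?_⟩) <;> intros <;> omega
  have emp : R ∅ := by simpa using mk (fun _ => 0)
  have up : ∀ π : Fin (p + p) → Finset (Fin n × Fin n), (∀ i, R (π i)) →
      ∑ i, (symmDiff (π i) ∅).card ≤ p * (n * n - n) := by
    intro π hπ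
    have h1 : ∑ i, 2 * (π i).card ≤ ∑ _i : Fin (p + p), (n * n - n) :=
      sum_le_sum fun i _ => half _ (po _ (hπ i))
    have h2 : ∀ i, symmDiff (π i) ∅ = π i := fun i => symmDiff_bot _
    rw [← mul_sum, sum_const, card_univ, Fintype.card_fin, smul_eq_mul, add_mul] at h1
    simp only [h2]
    omega
  constructor
  · let L : Finset (Fin n × Fin n) := univ.filter fun x => (x.1.val : ℤ) < x.2.val
    let L' : Finset (Fin n × Fin n) := univ.filter fun x => -(x.1.val : ℤ) < -x.2.val
    let π : Fin (p + p) → Finset (Fin n × Fin n) := Fin.addCases (fun _ => L) (fun _ => L')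
    have hπ : ∀ i, R (π i) := by
      intro i
      refine Fin.addCases (fun j => ?_) (fun j => ?_) i
      · simp only [π, Fin.addCases_left]; exact mk (fun a => a.val)
      · simp only [π, Fin.addCases_right]; exact mk (fun a => -(a.val : ℤ))
    have low : ∀ s, p * (n * n - n) ≤ ∑ i, (symmDiff (π i) s).card := by
      intro s
      have h1 : (univ : Finset (Fin n)).offDiag ⊆ symmDiff L s ∪ symmDiff L' s := by
        intro x hx
        have h2 : x.1.val ≠ x.2.val := fun e => (mem_offDiag.1 hx).2.2 (Fin.ext e)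
        simp only [mem_union, mem_symmDiff, L, L', mem_filter, mem_univ, true_and]
        by_cases hs : x ∈ s <;> simp only [hs, not_true, not_false_iff, and_true, and_false,
          true_and, false_and, or_false, false_or] <;> omega
      have h3 := (card_le_card h1).trans (card_union_le _ _)
      rw [offDiag_card, card_univ, Fintype.card_fin] at h3
      rw [Fin.sum_univ_add]
      simp only [π, Fin.addCases_left, Fin.addCases_right, sum_const, card_univ,
        Fintype.card_fin, smul_eq_mul]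
      rw [← mul_add]
      exact Nat.mul_le_mul_left _ h3
    exact ⟨π, hπ, ⟨∅, emp, le_antisymm (low _) (up π hπ)⟩, by rintro t ⟨s, -, rfl⟩; exact low s⟩
  · rintro d ⟨π, hπ, -, h⟩
    exact (h ⟨∅, emp, rfl⟩).trans (up π hπ)

end Pool.Agent.Results.MP_49573d_co.Even
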